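import Pool.Agent.U982.DK.Ring

/-!
# Splitting a packed sequence into its even and odd digits
-/

set_option autoImplicit false

namespace Pool.Agent.U982.DK

open PowerSeries Finset

/-- the number with digits `G` -/
def ds (x n : ℕ) (G : ℕ → ℕ) : ℕ := ∑ i ∈ range n, G i * x ^ i

lemma ds_succ (x n : ℕ) (G : ℕ → ℕ) : ds x (n + 1) G = G 0 + x * ds x n (fun i => G (i + 1)) := by
  rw [ds, sum_range_succ', ds, mul_sum, pow_zero, mul_one, add_comm]
  congr 1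
  exact sum_congr rfl fun i _ => by ring

lemma ds_lt (x n : ℕ) (G : ℕ → ℕ) (h : ∀ i < n, G i < x) : ds x n G < x ^ n := by
  induction n generalizing G with
  | zero => simp [ds]
  | succ n ih =>
    rw [ds_succ]
    have h1 := ih (fun i => G (i + 1)) (fun i hi => h (i + 1) (by omega))
    have h2 := h 0 (by omega)
    calc G 0 + x * ds x n (fun i => G (i + 1)) < x + x * ds x n (fun i => G (i + 1)) := by omega
      _ = x * (ds x n (fun i => G (i + 1)) + 1) := by ring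
      _ ≤ x * x ^ n := Nat.mul_le_mul_left _ h1
      _ = x ^ (n + 1) := by ring

lemma ds_digit (x n : ℕ) (G : ℕ → ℕ) (h : ∀ i < n, G i < x) : ∀ j < n, ds x n G / x ^ j % x = G j := by
  induction n generalizing G with
  | zero => intro j hj; omega
  | succ n ih =>
    intro j hj
    rw [ds_succ]
    have h2 := h 0 (by omega)
    cases j with
    | zero =>
      rw [pow_zero, Nat.div_one, Nat.add_mul_mod_self_left, Nat.mod_eq_of_lt h2]
    | succ j =>
      have h3 := ih (fun i => G (i + 1)) (fun i hi => h (i + 1) (by omega)) j (by omega)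
      rw [pow_succ', ← Nat.div_div_eq_div_mul, Nat.add_mul_div_left _ _ (by omega),
        Nat.div_eq_of_lt h2, zero_add]
      exact h3

lemma and_split (k a b u v : ℕ) (ha : a < 2 ^ k) (hu : u < 2 ^ k) :
    (a + 2 ^ k * b) &&& (u + 2 ^ k * v) = (a &&& u) + 2 ^ k * (b &&& v) := by
  have h1 : ((a + 2 ^ k * b) &&& (u + 2 ^ k * v)) % 2 ^ k = a &&& u := by
    rw [Nat.and_mod_two_pow, Nat.add_mul_mod_self_left, Nat.add_mul_mod_self_left,
      Nat.mod_eq_of_lt ha, Nat.mod_eq_of_lt hu]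
  have h2 : ((a + 2 ^ k * b) &&& (u + 2 ^ k * v)) / 2 ^ k = b &&& v := by
    rw [Nat.and_div_two_pow, Nat.add_mul_div_left _ _ (by positivity),
      Nat.add_mul_div_left _ _ (by positivity), Nat.div_eq_of_lt ha, Nat.div_eq_of_lt hu, zero_add,
      zero_add]
  rw [← Nat.mod_add_div ((a + 2 ^ k * b) &&& (u + 2 ^ k * v)) (2 ^ k), h1, h2]

/-- the repunit -/
def rp (c N : ℕ) : ℕ := ∑ j ∈ range N, (2 ^ (2 * c)) ^ j

lemma rp_succ (c N : ℕ) : rp c (N + 1) = 1 + 2 ^ (2 * c) * rp c N := by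
  rw [rp, sum_range_succ', rp, mul_sum, pow_zero, add_comm]
  congr 1
  exact sum_congr rfl fun i _ => by ring

lemma rp_mul (c N : ℕ) : (2 ^ (2 * c) - 1) * rp c N = 2 ^ (c * (2 * N)) - 1 := by
  induction N with
  | zero => simp [rp]
  | succ N ih =>
    rw [rp_succ, Nat.mul_add, mul_one, ← mul_assoc, mul_comm (2 ^ (2 * c) - 1) (2 ^ (2 * c)), mul_assoc,
      ih]
    have h1 : 1 ≤ 2 ^ (c * (2 * N)) := Nat.one_le_two_pow
    have h2 : 1 ≤ 2 ^ (2 * c) := Nat.one_le_two_pow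
    have h3 : 2 ^ (c * (2 * (N + 1))) = 2 ^ (2 * c) * 2 ^ (c * (2 * N)) := by
      rw [← pow_add]
      congr 1
      ring
    rw [h3, Nat.mul_sub, mul_one]
    have h4 : 2 ^ (2 * c) ≤ 2 ^ (2 * c) * 2 ^ (c * (2 * N)) := Nat.le_mul_of_pos_right _ h1
    omega

lemma rp_eq (c N : ℕ) (hc : 0 < c) : (2 ^ (c * (2 * N)) - 1) / (2 ^ (2 * c) - 1) = rp c N := by
  rw [← rp_mul]
  apply Nat.mul_div_cancel_left
  have : 2 ≤ 2 ^ (2 * c) := by
    calc 2 = 2 ^ 1 := rfl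
      _ ≤ 2 ^ (2 * c) := Nat.pow_le_pow_right (by norm_num) (by omega)
  omega

lemma land_even (c : ℕ) (N : ℕ) : ∀ G : ℕ → ℕ, (∀ i < 2 * N, G i < 2 ^ c) →
    ds (2 ^ c) (2 * N) G &&& ((2 ^ c - 1) * rp c N) = ds (2 ^ (2 * c)) N (fun j => G (2 * j)) := by
  induction N with
  | zero =>
    intro G _
    simp [ds]
  | succ N ih =>
    intro G hG
    have h1 : ds (2 ^ c) (2 * (N + 1)) G
        = (G 0 + 2 ^ c * G 1) + 2 ^ (2 * c) * ds (2 ^ c) (2 * N) (fun i => G (i + 2)) := by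
      rw [show 2 * (N + 1) = (2 * N + 1) + 1 by ring, ds_succ, ds_succ]
      ring
    have h2 : (2 ^ c - 1) * rp c (N + 1) = (2 ^ c - 1) + 2 ^ (2 * c) * ((2 ^ c - 1) * rp c N) := by
      rw [rp_succ]
      ring
    have hG0 := hG 0 (by omega)
    have hG1 := hG 1 (by omega)
    have hpos : 0 < 2 ^ c := by positivity
    have h3 : G 0 + 2 ^ c * G 1 < 2 ^ (2 * c) := by
      have h4 : 2 ^ (2 * c) = 2 ^ c * 2 ^ c := by rw [two_mul, pow_add]
      rw [h4]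
      nlinarith
    have h4 : 2 ^ c - 1 < 2 ^ (2 * c) := by
      have : 2 ^ c ≤ 2 ^ (2 * c) := Nat.pow_le_pow_right (by norm_num) (by omega)
      omega
    rw [h1, h2, and_split _ _ _ _ _ h3 h4, ds_succ, ih (fun i => G (i + 2)) (fun i hi => hG _ (by omega))]
    have h5 : (G 0 + 2 ^ c * G 1) &&& (2 ^ c - 1) = G (2 * 0) := by
      rw [Nat.and_two_pow_sub_one_eq_mod, Nat.add_mul_mod_self_left, Nat.mod_eq_of_lt hG0]
    rw [h5]
    rfl

lemma ds_div (x n : ℕ) (hx : 0 < x) (G : ℕ → ℕ) (h : G 0 < x) :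
    ds x (n + 1) G / x = ds x (n + 1) (fun i => if i < n then G (i + 1) else 0) := by
  rw [ds_succ, Nat.add_mul_div_left _ _ hx, Nat.div_eq_of_lt h, zero_add]
  rw [ds, ds, sum_range_succ (fun i => (if i < n then G (i + 1) else 0) * x ^ i)]
  rw [if_neg (by omega), zero_mul, add_zero]
  refine sum_congr rfl fun i hi => ?_
  rw [if_pos (mem_range.mp hi)]

lemma land_odd (c : ℕ) (N : ℕ) (G : ℕ → ℕ) (hG : ∀ i < 2 * N, G i < 2 ^ c) :
    (ds (2 ^ c) (2 * N) G / 2 ^ c) &&& ((2 ^ c - 1) * rp c N)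
      = ds (2 ^ (2 * c)) N (fun j => G (2 * j + 1)) := by
  cases N with
  | zero => simp [ds]
  | succ N =>
    have hpos : 0 < 2 ^ c := by positivity
    have h1 : ds (2 ^ c) (2 * (N + 1)) G / 2 ^ c
        = ds (2 ^ c) (2 * (N + 1)) (fun i => if i < 2 * N + 1 then G (i + 1) else 0) :=
      ds_div _ (2 * N + 1) hpos G (hG 0 (by omega))
    rw [h1, land_even]
    · rw [ds, ds]
      refine sum_congr rfl fun i hi => ?_
      have := mem_range.mp hi
      rw [if_pos (by omega)]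
    · intro i hi
      by_cases h2 : i < 2 * N + 1
      · rw [if_pos h2]
        exact hG _ (by omega)
      · rw [if_neg h2]
        exact hpos

/-- all coefficients below `N` are at most `a` -/
def Bd (f : ℤ⟦X⟧) (N a : ℕ) : Prop := ∀ i < N, |coeff i f| ≤ (a : ℤ)

/-- the digits of the shifted series -/
noncomputable def gd (f : ℤ⟦X⟧) (c i : ℕ) : ℕ := (coeff i f + 2 ^ (c - 1)).toNat

lemma gd_spec (f : ℤ⟦X⟧) (c N a : ℕ) (hc : 0 < c) (hb : Bd f N a) (ha : a < 2 ^ (c - 1)) (i : ℕ) (hi : i < N) :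
    (gd f c i : ℤ) = coeff i f + 2 ^ (c - 1) ∧ gd f c i < 2 ^ c := by
  have h1 := hb i hi
  rw [abs_le] at h1
  have h2 : (a : ℤ) < 2 ^ (c - 1) := by exact_mod_cast ha
  have h3 : (gd f c i : ℤ) = coeff i f + 2 ^ (c - 1) := by
    rw [gd, Int.toNat_of_nonneg (by linarith)]
  refine ⟨h3, ?_⟩
  have h4 : (2 : ℤ) ^ c = 2 ^ (c - 1) * 2 := by rw [← pow_succ, Nat.sub_add_cancel hc]
  have h5 : (gd f c i : ℤ) < 2 ^ c := by rw [h3, h4]; linarith
  exact_mod_cast h5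

/-- the offset -/
def of (c N : ℕ) : ℕ := 2 ^ (c - 1) * rp c N

lemma of_sum (c N : ℕ) : ((of c N + 2 ^ c * of c N : ℕ) : ℤ)
    = ∑ i ∈ range (2 * N), (2 : ℤ) ^ (c - 1) * (2 ^ c) ^ i := by
  rw [of, rp]
  push_cast
  induction N with
  | zero => simp
  | succ N ih =>
    have e1 : ∑ i ∈ range (2 * (N + 1)), (2 : ℤ) ^ (c - 1) * (2 ^ c) ^ i
        = ∑ i ∈ range (2 * N), (2 : ℤ) ^ (c - 1) * (2 ^ c) ^ i + 2 ^ (c - 1) * (2 ^ c) ^ (2 * N)
          + 2 ^ (c - 1) * (2 ^ c) ^ (2 * N + 1) := by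
      rw [show 2 * (N + 1) = 2 * N + 1 + 1 by ring, sum_range_succ, sum_range_succ]
    rw [e1, ← ih, sum_range_succ]
    ring

lemma shifted_eq (f : ℤ⟦X⟧) (c N a F : ℕ) (hc : 0 < c) (hF : Rep f c (2 * N) F) (hb : Bd f (2 * N) a)
    (ha : a < 2 ^ (c - 1)) :
    (F + (of c N + 2 ^ c * of c N)) % 2 ^ (c * (2 * N)) = ds (2 ^ c) (2 * N) (gd f c) := by
  have hg := gd_spec f c (2 * N) a hc hb ha
  have h1 : ds (2 ^ c) (2 * N) (gd f c) < 2 ^ (c * (2 * N)) := by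
    rw [pow_mul]
    exact ds_lt _ _ _ fun i hi => (hg i hi).2
  have h2 : (ds (2 ^ c) (2 * N) (gd f c) : ℤ) = tv f (2 * N) ((2 : ℤ) ^ c)
      + (of c N + 2 ^ c * of c N : ℕ) := by
    rw [of_sum, ds, tv, ← sum_add_distrib]
    push_cast
    refine sum_congr rfl fun i hi => ?_
    rw [(hg i (mem_range.mp hi)).1]
    ring
  have h4 : ((2 ^ (c * (2 * N)) : ℕ) : ℤ) ∣ ((F + (of c N + 2 ^ c * of c N) : ℕ) : ℤ)
      - (ds (2 ^ c) (2 * N) (gd f c) : ℤ) := by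
    have h5 := hF.2
    unfold Cg at h5
    rw [← pow_mul] at h5
    rw [h2]
    rw [Nat.cast_add]
    push_cast at h5 ⊢
    convert! h5 using 1
    ring
  have h5 := (Nat.modEq_iff_dvd.mpr h4).symm
  rw [Nat.ModEq] at h5
  rw [h5, Nat.mod_eq_of_lt h1]

/-- the even digits -/
lemma even_part (f : ℤ⟦X⟧) (c N a F : ℕ) (hc : 0 < c) (hF : Rep f c (2 * N) F) (hb : Bd f (2 * N) a)
    (ha : a < 2 ^ (c - 1)) :
    Rep (ep f) (2 * c) N
      (((((F + (of c N + 2 ^ c * of c N)) % 2 ^ (c * (2 * N))) &&& ((2 ^ c - 1) * rp c N))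
        + (2 ^ (c * (2 * N)) - of c N)) % 2 ^ (c * (2 * N))) ∧
    Rep (op f) (2 * c) N
      ((((((F + (of c N + 2 ^ c * of c N)) % 2 ^ (c * (2 * N))) / 2 ^ c) &&& ((2 ^ c - 1) * rp c N))
        + (2 ^ (c * (2 * N)) - of c N)) % 2 ^ (c * (2 * N))) := by
  have hg := gd_spec f c (2 * N) a hc hb ha
  have hof : of c N ≤ 2 ^ (c * (2 * N)) := by
    have h1 := rp_mul c N
    have h2 : 2 ^ (c - 1) ≤ 2 ^ (2 * c) - 1 := by
      have h3 : 2 ^ (c - 1) < 2 ^ (2 * c) := Nat.pow_lt_pow_right (by norm_num) (by omega)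
      omega
    calc of c N ≤ (2 ^ (2 * c) - 1) * rp c N := Nat.mul_le_mul_right _ h2
      _ = 2 ^ (c * (2 * N)) - 1 := h1
      _ ≤ _ := Nat.sub_le _ _
  have hcc : c * (2 * N) = 2 * c * N := by ring
  have hof2 : ((of c N : ℕ) : ℤ) = ∑ j ∈ range N, (2 : ℤ) ^ (c - 1) * (2 ^ (2 * c)) ^ j := by
    rw [of, rp]
    push_cast
    rw [mul_sum]
  rw [shifted_eq f c N a F hc hF hb ha, land_even c N (gd f c) (fun i hi => (hg i hi).2),
    land_odd c N (gd f c) (fun i hi => (hg i hi).2)]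
  have key : ∀ (u : ℤ⟦X⟧) (G : ℕ → ℕ), (∀ j < N, (G j : ℤ) = coeff j u + 2 ^ (c - 1)) →
      Rep u (2 * c) N ((ds (2 ^ (2 * c)) N G + (2 ^ (c * (2 * N)) - of c N)) % 2 ^ (c * (2 * N))) := by
    intro u G hG
    rw [hcc]
    apply Rep.of_nat
    have h1 : ((ds (2 ^ (2 * c)) N G + (2 ^ (2 * c * N) - of c N) : ℕ) : ℤ)
        = tv u N ((2 : ℤ) ^ (2 * c)) + ((2 : ℤ) ^ (2 * c)) ^ N := by
      rw [hcc] at hof
      rw [Nat.cast_add, Nat.cast_sub hof, hof2, ds, tv, ← pow_mul]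
      push_cast
      have h2 : ∑ i ∈ range N, (G i : ℤ) * (2 ^ (2 * c)) ^ i
          = ∑ i ∈ range N, coeff i u * (2 ^ (2 * c)) ^ i + ∑ j ∈ range N, (2 : ℤ) ^ (c - 1) * (2 ^ (2 * c)) ^ j := by
        rw [← sum_add_distrib]
        refine sum_congr rfl fun i hi => ?_
        rw [hG i (mem_range.mp hi)]
        ring
      rw [h2]
      ring
    unfold Cg
    rw [h1]
    exact ⟨1, by ring⟩
  constructor
  · apply key
    intro j hj
    rw [(hg (2 * j) (by omega)).1, ep, coeff_mk]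
  · apply key
    intro j hj
    rw [(hg (2 * j + 1) (by omega)).1, op, coeff_mk]

end Pool.Agent.U982.DK
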