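import Pool.Agent.X40.SQ.Series

/-!
# An upper bound for the strict partition function
-/

set_option autoImplicit false

namespace Pool.Agent.U982.DK

open Finset
open Pool.Agent.X40.SQ (q)

lemma q_le_card (n : ℕ) :
    q n ≤ ((Icc 1 n).powerset.filter (fun s => ∑ i ∈ s, i = n)).card := by
  have hnd : ∀ p ∈ Nat.Partition.distincts n, p.parts.Nodup := by
    intro p hp
    simpa [Nat.Partition.distincts] using hp
  refine Finset.card_le_card_of_injOn (fun p => p.parts.toFinset) ?_ ?_
  · intro p hp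
    have hp' := hnd p hp
    have hval : p.parts.toFinset.val = p.parts := by
      rw [Multiset.toFinset_val, Multiset.dedup_eq_self.mpr hp']
    have hsum : ∑ i ∈ p.parts.toFinset, i = n := by
      rw [Finset.sum, hval, Multiset.map_id', p.parts_sum]
    simp only [coe_filter, Set.mem_ofPred_eq, mem_powerset]
    refine ⟨?_, hsum⟩
    intro i hi
    rw [mem_Icc]
    refine ⟨p.parts_pos (Multiset.mem_toFinset.mp hi), ?_⟩
    calc i ≤ ∑ i ∈ p.parts.toFinset, i :=
          single_le_sum (f := fun i : ℕ => i) (fun _ _ => Nat.zero_le _) hi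
      _ = n := hsum
  · intro p hp r hr h
    have h1 := hnd p hp
    have h2 := hnd r hr
    have h3 : p.parts.toFinset.val = r.parts.toFinset.val := congrArg Finset.val h
    rw [Multiset.toFinset_val, Multiset.toFinset_val, Multiset.dedup_eq_self.mpr h1,
      Multiset.dedup_eq_self.mpr h2] at h3
    exact Nat.Partition.ext h3

lemma q_mul_le (n : ℕ) (x : ℝ) (hx : 0 < x) : (q n : ℝ) * x ^ n ≤ ∏ i ∈ Icc 1 n, (1 + x ^ i) := by
  rw [Finset.prod_one_add]
  have h1 : (q n : ℝ) * x ^ n ≤ ∑ s ∈ (Icc 1 n).powerset.filter (fun s => ∑ i ∈ s, i = n), ∏ i ∈ s, x ^ i := by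
    have h2 : ∀ s ∈ (Icc 1 n).powerset.filter (fun s => ∑ i ∈ s, i = n), ∏ i ∈ s, x ^ i = x ^ n := by
      intro s hs
      rw [mem_filter] at hs
      rw [prod_pow_eq_pow_sum, hs.2]
    rw [sum_congr rfl h2, sum_const, nsmul_eq_mul]
    exact mul_le_mul_of_nonneg_right (by exact_mod_cast q_le_card n) (by positivity)
  refine h1.trans (sum_le_sum_of_subset_of_nonneg (filter_subset _ _) ?_)
  intro s _ _
  exact prod_nonneg fun i _ => by positivity

lemma q_le_exp (n m : ℕ) (hm : 0 < m) (h : n ≤ m * m) : (q n : ℝ) ≤ Real.exp (2 * m) := by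
  have hm' : (0 : ℝ) < m := by exact_mod_cast hm
  set x : ℝ := m / (m + 1) with hx
  have hx0 : 0 < x := by positivity
  have hx1 : x < 1 := by
    rw [hx, div_lt_one (by positivity)]
    linarith
  have h1 := q_mul_le n x hx0
  have h2 : ∏ i ∈ Icc 1 n, (1 + x ^ i) ≤ Real.exp m := by
    have h3 : ∏ i ∈ Icc 1 n, (1 + x ^ i) ≤ ∏ i ∈ Icc 1 n, Real.exp (x ^ i) := by
      apply prod_le_prod
      · intro i _
        positivity
      · intro i _
        rw [add_comm]
        exact Real.add_one_le_exp _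
    rw [← Real.exp_sum] at h3
    refine h3.trans (Real.exp_le_exp.mpr ?_)
    have h4 : ∑ i ∈ Icc 1 n, x ^ i ≤ x / (1 - x) := by
      have h5 : ∀ n : ℕ, ∑ i ∈ Icc 1 n, x ^ i = x * ((1 - x ^ n) / (1 - x)) := by
        intro n
        have h8 : 1 - x ≠ 0 := sub_ne_zero.mpr hx1.ne'
        induction n with
        | zero => simp
        | succ n ih =>
          rw [sum_Icc_succ_top (by omega), ih]
          field_simp
          ring
      rw [h5, mul_div_assoc']
      apply div_le_div_of_nonneg_right _ (by linarith)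
      have : 0 ≤ x ^ n := by positivity
      nlinarith
    have h6 : x / (1 - x) = m := by
      rw [hx]
      field_simp
      ring
    rw [h6] at h4
    exact h4
  have h7 : 1 ≤ x ^ n * Real.exp m := by
    have h8 : x⁻¹ ≤ Real.exp (1 / m) := by
      have h9 : x⁻¹ = 1 / m + 1 := by
        rw [hx, inv_div]
        field_simp
        ring
      rw [h9]
      exact Real.add_one_le_exp _
    have h10 : (x⁻¹) ^ n ≤ Real.exp m := by
      calc (x⁻¹) ^ n ≤ (Real.exp (1 / m)) ^ n := by gcongr
        _ = Real.exp (n * (1 / m)) := by rw [← Real.exp_nat_mul]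
        _ ≤ Real.exp m := by
          apply Real.exp_le_exp.mpr
          rw [mul_one_div, div_le_iff₀ hm']
          exact_mod_cast h
    rw [inv_pow] at h10
    have h11 : 0 < x ^ n := by positivity
    calc (1 : ℝ) = x ^ n * (x ^ n)⁻¹ := by rw [mul_inv_cancel₀ h11.ne']
      _ ≤ x ^ n * Real.exp m := mul_le_mul_of_nonneg_left h10 h11.le
  calc (q n : ℝ) = q n * 1 := by ring
    _ ≤ q n * (x ^ n * Real.exp m) := mul_le_mul_of_nonneg_left h7 (Nat.cast_nonneg _)
    _ = (q n * x ^ n) * Real.exp m := by ring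
    _ ≤ Real.exp m * Real.exp m := mul_le_mul_of_nonneg_right (h1.trans h2) (Real.exp_pos _).le
    _ = Real.exp (2 * m) := by rw [← Real.exp_add]; ring_nf

lemma q_lt_pow (n m C : ℕ) (hm : 0 < m) (h : n ≤ m * m)
    (hC : 27182818286 ^ (2 * m) ≤ 2 ^ C * 10 ^ (10 * (2 * m))) : q n < 2 ^ C := by
  have h1 := q_le_exp n m hm h
  have h2 : Real.exp (2 * m) = (Real.exp 1) ^ (2 * m) := by
    rw [← Real.exp_nat_mul]
    push_cast
    ring_nf
  have h3 : (Real.exp 1) ^ (2 * m) < (27182818286 / 10 ^ 10 : ℝ) ^ (2 * m) := by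
    apply pow_lt_pow_left₀ _ (Real.exp_pos _).le (by omega)
    have := Real.exp_one_lt_d9
    norm_num at this ⊢
    linarith
  have h4 : (27182818286 / 10 ^ 10 : ℝ) ^ (2 * m) ≤ 2 ^ C := by
    rw [div_pow, div_le_iff₀ (by positivity), ← pow_mul]
    exact_mod_cast hC
  have h5 : (q n : ℝ) < 2 ^ C := by
    rw [h2] at h1
    exact (h1.trans_lt h3).trans_le h4
  exact_mod_cast h5

end Pool.Agent.U982.DK
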