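import Pool.Agent.U982.DK.Main

/-!
# The same computation with stored intermediate values

The values of the chain of denominators and of the numerators at small depth are given as constants
and checked one by one; the subtrees are then checked separately.
-/

set_option autoImplicit false

namespace Pool.Agent.U982.DK

open PowerSeries Finset
open Pool.Agent.X40.SQ (fo fn mask fo_eq fn_eq land_mask mask_eq EV EV_spec al al_mono q e r
  series_eq sum_r abs_e_le abs_r_le rec_and beq_true blt_true)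

/-- the next denominator -/
noncomputable def nx (f : ℤ⟦X⟧) : ℤ⟦X⟧ := ep f * ep f - X * (op f * op f)

/-- the denominators -/
noncomputable def Dn : ℕ → ℤ⟦X⟧
  | 0 => pentagonalSeries ℤ
  | i + 1 => nx (Dn i)

/-- the offset -/
noncomputable def fO (c S : ℕ) : ℕ :=
  Nat.shiftLeft (Nat.div (mask S) (mask (Nat.mul 2 c))) (Nat.sub c 1)

/-- the double offset -/
noncomputable def fOO (c O : ℕ) : ℕ := Nat.add O (Nat.shiftLeft O c)

/-- the digit mask -/
noncomputable def fM (c S : ℕ) : ℕ := Nat.mul (mask c) (Nat.div (mask S) (mask (Nat.mul 2 c)))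

/-- the even part of a value -/
noncomputable def fE (S O OO M F : ℕ) : ℕ :=
  Nat.land (Nat.add (Nat.land (Nat.land (Nat.add F OO) (mask S)) M) (Nat.sub (Nat.shiftLeft 1 S) O))
    (mask S)

/-- the odd part of a value -/
noncomputable def fF (c S O OO M F : ℕ) : ℕ :=
  Nat.land (Nat.add (Nat.land (Nat.shiftRight (Nat.land (Nat.add F OO) (mask S)) c) M)
    (Nat.sub (Nat.shiftLeft 1 S) O)) (mask S)

/-- the next denominator -/
noncomputable def fD (c S E F : ℕ) : ℕ :=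
  sb S (Nat.mul E E) (Nat.shiftLeft (Nat.mul F F) (Nat.mul 2 c))

/-- the even child of a numerator -/
noncomputable def fQ (c S O OO M De Do P : ℕ) : ℕ :=
  sb S (Nat.mul (fE S O OO M P) De) (Nat.shiftLeft (Nat.mul (fF c S O OO M P) Do) (Nat.mul 2 c))

/-- the odd child of a numerator -/
noncomputable def fR (c S O OO M De Do P : ℕ) : ℕ :=
  sb S (Nat.mul (fF c S O OO M P) De) (Nat.mul (fE S O OO M P) Do)

/-- what is known about a level -/
def DOk (i c N a D : ℕ) : Prop := Rep (Dn i) c N D ∧ Bd (Dn i) N a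

/-- what is known about the constants of a level -/
def LOk (i c K O OO M De Do : ℕ) : Prop :=
  O = of c K ∧ OO = of c K + 2 ^ c * of c K ∧ M = (2 ^ c - 1) * rp c K ∧
  Rep (ep (Dn i)) (2 * c) K De ∧ Rep (op (Dn i)) (2 * c) K Do

/-- numerical side conditions -/
noncomputable def sc (S c c' N K a a' : ℕ) : Bool :=
  Bool.rec (motive := fun _ => Bool) false
    (Bool.rec (motive := fun _ => Bool) false
      (Bool.rec (motive := fun _ => Bool) false
        (Bool.rec (motive := fun _ => Bool) false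
          (Bool.rec (motive := fun _ => Bool) false (Nat.beq S (Nat.mul c N)) (Nat.blt 0 c))
          (Nat.beq N (Nat.mul 2 K)))
        (Nat.blt a (Nat.pow 2 (Nat.sub c 1))))
      (Nat.beq c' (Nat.mul 2 c)))
    (Nat.beq a' (Nat.mul (Nat.mul N a) a))

lemma sc_spec {S c c' N K a a' : ℕ} (h : sc S c c' N K a a' = true) :
    a' = N * a * a ∧ c' = 2 * c ∧ a < 2 ^ (c - 1) ∧ N = 2 * K ∧ 0 < c ∧ S = c * N := by
  rw [sc] at h
  obtain ⟨h1, h⟩ := rec_and h
  obtain ⟨h2, h⟩ := rec_and h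
  obtain ⟨h3, h⟩ := rec_and h
  obtain ⟨h4, h⟩ := rec_and h
  obtain ⟨h5, h⟩ := rec_and h
  exact ⟨beq_true h1, beq_true h2, blt_true h3, beq_true h4, blt_true h5, beq_true h⟩

lemma part_spec (f : ℤ⟦X⟧) (c K a F O OO M : ℕ) (hc : 0 < c) (hF : Rep f c (2 * K) F)
    (hb : Bd f (2 * K) a) (ha : a < 2 ^ (c - 1)) (hO : O = of c K)
    (hOO : OO = of c K + 2 ^ c * of c K) (hM : M = (2 ^ c - 1) * rp c K) :
    Rep (ep f) (2 * c) K (fE (c * (2 * K)) O OO M F) ∧
      Rep (op f) (2 * c) K (fF c (c * (2 * K)) O OO M F) := by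
  have h1 := even_part f c K a F hc hF hb ha
  have h2 : ∀ z : ℕ, Nat.shiftRight z c = z / 2 ^ c := fun z => Nat.shiftRight_eq_div_pow z c
  rw [fE, fF, land_mask, land_mask, land_mask, shl_one, hO, hOO, hM, h2]
  exact h1

theorem lev_spec (i S c c' N K a a' D O OO M De Do D' : ℕ) (hs : sc S c c' N K a a' = true)
    (hD : DOk i c N a D) (hO : fO c S = O) (hOO : fOO c O = OO) (hM : fM c S = M)
    (hE : fE S O OO M D = De) (hF : fF c S O OO M D = Do) (h' : fD c S De Do = D') :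
    LOk i c K O OO M De Do ∧ DOk (i + 1) c' K a' D' := by
  obtain ⟨rfl, rfl, ha, rfl, hc, rfl⟩ := sc_spec hs
  obtain ⟨hrep, hb⟩ := hD
  have hR : Nat.div (mask (c * (2 * K))) (mask (Nat.mul 2 c)) = rp c K := by
    rw [mask_eq, mask_eq]
    exact rp_eq c K hc
  have hO' : O = of c K := by
    rw [← hO, fO, hR, show Nat.shiftLeft (rp c K) (Nat.sub c 1) = (rp c K) <<< (c - 1) from rfl,
      Nat.shiftLeft_eq, of, mul_comm]
  have hM' : M = (2 ^ c - 1) * rp c K := by
    rw [← hM, fM, hR, mask_eq]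
    rfl
  have hOO' : OO = of c K + 2 ^ c * of c K := by
    rw [← hOO, fOO, hO', show Nat.shiftLeft (of c K) c = (of c K) <<< c from rfl,
      Nat.shiftLeft_eq, mul_comm]
    rfl
  obtain ⟨h1, h2⟩ := part_spec (Dn i) c K a D O OO M hc hrep hb ha hO' hOO' hM'
  rw [hE] at h1
  rw [hF] at h2
  refine ⟨⟨hO', hOO', hM', h1, h2⟩, ?_, ?_⟩
  · rw [← h', fD]
    have hcc : c * (2 * K) = 2 * c * K := by ring
    rw [hcc]
    exact Rep.sb (Cg_mulN h1.2 h1.2) (Cg_shift (Cg_mulN h2.2 h2.2))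
  · have h7 := Bd_sub (Bd_mul (Bd_ep hb) (Bd_ep hb)) (Bd_xmul (Bd_mul (Bd_op hb) (Bd_op hb)))
    have h8 : K * a * a + K * a * a = 2 * K * a * a := by ring
    rw [h8] at h7
    exact h7

theorem node_snd (i CF S c c' N K a a' D O OO M De Do : ℕ) (go : T → ℕ → Bool)
    (hs : sc S c c' N K a a' = true) (hD : DOk i c N a D) (hL : LOk i c K O OO M De Do)
    (hgo : Snd c' K a' CF (Dn (i + 1)) go) :
    Snd c N a CF (Dn i) (node c S O OO M De Do go) := by
  obtain ⟨rfl, rfl, ha, rfl, hc, rfl⟩ := sc_spec hs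
  obtain ⟨hO, hOO, hM, hE, hF⟩ := hL
  rw [hO, hOO, hM]
  exact node_spec c K a CF De Do (Dn i) go hc ha hD.2 hE hF hgo

theorem leaf_snd (i c N a S D I : ℕ) (hS : Nat.beq S (Nat.mul c N) = true) (hD : DOk i c N a D)
    (hI : Nat.beq (Nat.land (Nat.mul I D) (mask S)) 1 = true) :
    Snd c N a c (Dn i) (leafgo c N S I) := by
  have hS' : S = c * N := beq_true hS
  subst hS'
  exact leafgo_spec c N a D I (Dn i) hD.1 (beq_true hI)

/-- what is known about a numerator -/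
def St (i c N a CF : ℕ) (A : ℤ⟦X⟧) (P : ℕ) : Prop :=
  ∃ Pf, A * Dn i = Pf ∧ Rep Pf c N P ∧ Bd Pf N a ∧ ∀ j < N, 0 ≤ coeff j A ∧ coeff j A < 2 ^ CF

theorem num_even (i CF S c c' N K a a' D O OO M De Do P Q : ℕ) (A : ℤ⟦X⟧)
    (hs : sc S c c' N K a a' = true) (hD : DOk i c N a D)
    (hL : LOk i c K O OO M De Do) (hP : St i c N a CF A P)
    (h : fQ c S O OO M De Do P = Q) : St (i + 1) c' K a' CF (ep A) Q := by
  obtain ⟨rfl, rfl, ha, rfl, hc, rfl⟩ := sc_spec hs
  obtain ⟨hO, hOO, hM, hE, hF⟩ := hL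
  obtain ⟨Pf, hA, hPr, hbP, hb⟩ := hP
  obtain ⟨hPe, hPo⟩ := part_spec Pf c K a P O OO M hc hPr hbP ha hO hOO hM
  subst h
  obtain ⟨hs1, hs2⟩ := step A (Dn i) Pf hA
  rw [fQ]
  have hcc : c * (2 * K) = 2 * c * K := by ring
  rw [hcc] at hPe hPo ⊢
  have hbe := Bd_ep hbP
  have hbo := Bd_op hbP
  have hde := Bd_ep hD.2
  have hdo := Bd_op hD.2
  refine ⟨_, hs1, Rep.sb (Cg_mulN hPe.2 hE.2) (Cg_shift (Cg_mulN hPo.2 hF.2)), ?_, ?_⟩
  · have h3 := Bd_sub (Bd_mul hbe hde) (Bd_xmul (Bd_mul hbo hdo))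
    have h4 : K * a * a + K * a * a = 2 * K * a * a := by ring
    rw [h4] at h3
    exact h3
  · intro j hj
    rw [ep, coeff_mk]
    exact hb _ (by omega)

theorem num_odd (i CF S c c' N K a a' D O OO M De Do P Q : ℕ) (A : ℤ⟦X⟧)
    (hs : sc S c c' N K a a' = true) (hD : DOk i c N a D)
    (hL : LOk i c K O OO M De Do) (hP : St i c N a CF A P)
    (h : fR c S O OO M De Do P = Q) : St (i + 1) c' K a' CF (op A) Q := by
  obtain ⟨rfl, rfl, ha, rfl, hc, rfl⟩ := sc_spec hs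
  obtain ⟨hO, hOO, hM, hE, hF⟩ := hL
  obtain ⟨Pf, hA, hPr, hbP, hb⟩ := hP
  obtain ⟨hPe, hPo⟩ := part_spec Pf c K a P O OO M hc hPr hbP ha hO hOO hM
  subst h
  obtain ⟨hs1, hs2⟩ := step A (Dn i) Pf hA
  rw [fR]
  have hcc : c * (2 * K) = 2 * c * K := by ring
  rw [hcc] at hPe hPo ⊢
  have hbe := Bd_ep hbP
  have hbo := Bd_op hbP
  have hde := Bd_ep hD.2
  have hdo := Bd_op hD.2
  refine ⟨_, hs2, Rep.sb (Cg_mulN hPo.2 hE.2) (Cg_mulN hPe.2 hF.2), ?_, ?_⟩
  · have h3 := Bd_sub (Bd_mul hbo hde) (Bd_mul hbe hdo)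
    have h4 : K * a * a + K * a * a = 2 * K * a * a := by ring
    rw [h4] at h3
    exact h3
  · intro j hj
    rw [op, coeff_mk]
    exact hb _ (by omega)

lemma Hold_ep (A : ℤ⟦X⟧) (a b : T) (h : Hold A (T.nd a b)) : Hold (ep A) a := by
  intro v hv
  rw [ep, coeff_mk]
  apply h
  change (Bool.rec (motive := fun _ => Bool) (memB b (2 * v / 2)) (memB a (2 * v / 2))
      (Nat.beq (2 * v % 2) 0) : Bool) = true
  rw [Nat.mul_mod_right, Nat.mul_div_cancel_left v (by norm_num)]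
  exact hv

lemma Hold_op (A : ℤ⟦X⟧) (a b : T) (h : Hold A (T.nd a b)) : Hold (op A) b := by
  intro v hv
  rw [op, coeff_mk]
  apply h
  change (Bool.rec (motive := fun _ => Bool) (memB b ((2 * v + 1) / 2)) (memB a ((2 * v + 1) / 2))
      (Nat.beq ((2 * v + 1) % 2) 0) : Bool) = true
  rw [show (2 * v + 1) % 2 = 1 by omega, show (2 * v + 1) / 2 = v by omega]
  exact hv

theorem st_hold (i c N a CF : ℕ) (A : ℤ⟦X⟧) (P : ℕ) (go : T → ℕ → Bool) (t : T)
    (hP : St i c N a CF A P) (hgo : Snd c N a CF (Dn i) go) (h : go t P = true) : Hold A t := by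
  obtain ⟨Pf, hA, hPr, hbP, hb⟩ := hP
  exact hgo A Pf t P hA hPr hbP hb h

theorem D_zero (c N L D : ℕ) (hc : 0 < c) (hL : N ≤ al (2 ^ L))
    (h : EV c N L = D) : DOk 0 c N 1 D := by
  subst h
  exact ⟨⟨EV_lt c N L, EV_spec c N L hc hL⟩, fun i _ => by
    have := abs_e_le i
    rw [e] at this
    exact_mod_cast this⟩

theorem P_zero (c N L C P : ℕ) (hc : 0 < c) (hN : N = 2 * (N / 2)) (hL : N ≤ al (2 ^ L))
    (hq : ∀ v < N, q v < 2 ^ C) (h : EV (Nat.mul 2 c) (Nat.div N 2) L = P) :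
    St 0 c N 1 C QS P := by
  subst h
  obtain ⟨M, rfl⟩ : ∃ M, N = 2 * M := ⟨N / 2, hN⟩
  have hM : Nat.div (2 * M) 2 = M := Nat.mul_div_cancel_left M (by norm_num)
  rw [hM]
  have hr : ∀ i, coeff i (expand 2 two_ne_zero (pentagonalSeries ℤ)) = r i := by
    intro i
    rw [coeff_expand, r]
    rfl
  have hP : Rep (expand 2 two_ne_zero (pentagonalSeries ℤ)) c (2 * M) (EV (2 * c) M L) := by
    constructor
    · have h3 := EV_lt (2 * c) M L
      have h4 : c * (2 * M) = 2 * c * M := by ring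
      rw [h4]
      exact h3
    · have h3 := EV_spec (2 * c) M L (by omega) (by omega)
      unfold Cg tv
      have h4 : ∑ i ∈ range (2 * M), coeff i (expand 2 two_ne_zero (pentagonalSeries ℤ)) * ((2 : ℤ) ^ c) ^ i
          = ∑ i ∈ range M, e i * ((2 : ℤ) ^ (2 * c)) ^ i := by
        have h5 := sum_r M ((2 : ℤ) ^ c)
        rw [← pow_mul, mul_comm c 2] at h5
        rw [← h5]
        exact sum_congr rfl fun i _ => by rw [hr]
      rw [h4]
      have h6 : ((2 : ℤ) ^ c) ^ (2 * M) = ((2 : ℤ) ^ (2 * c)) ^ M := by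
        rw [← pow_mul, ← pow_mul]
        congr 1
        ring
      rw [h6]
      exact h3
  have hbP : Bd (expand 2 two_ne_zero (pentagonalSeries ℤ)) (2 * M) 1 := fun i _ => by
    rw [hr]
    exact_mod_cast abs_r_le i
  exact ⟨_, series_eq, hP, hbP, by
    intro i hi
    rw [QS, coeff_mk]
    refine ⟨by positivity, ?_⟩
    exact_mod_cast hq i hi⟩

theorem hold_q (t : T) (h : Hold QS t) : ∀ v, memB t v = true → ¬ (q v + 1).Prime := by
  intro v hv
  have h8 := h v hv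
  rw [QS, coeff_mk, Int.toNat_natCast] at h8
  exact h8

end Pool.Agent.U982.DK
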