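import Pool.Agent.U982.DK.Run
import Pool.Agent.U982.DK.Bound

/-!
# The whole computation
-/

set_option autoImplicit false

namespace Pool.Agent.U982.DK

open PowerSeries Finset
open Pool.Agent.X40.SQ (fo fn mask fo_eq fn_eq land_mask mask_eq EV EV_spec al al_mono q e r
  series_eq sum_r abs_e_le abs_r_le totc totc_spec rec_and)

/-- the computation for the tree `t` -/
noncomputable def run (l c N L : ℕ) (t : T) : Bool :=
  fo (EV c N L) fun D => mk l c N (Nat.mul c N) D fun go =>
    fo (EV (Nat.mul 2 c) (Nat.div N 2) L) (go t)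

lemma EV_lt (c N L : ℕ) : EV c N L < 2 ^ (c * N) := by
  rw [EV, land_mask]
  exact Nat.mod_lt _ (by positivity)

/-- the generating series -/
noncomputable def QS : ℤ⟦X⟧ := PowerSeries.mk fun n => (q n : ℤ)

theorem run_spec (l c N L : ℕ) (t : T) (hc : 0 < c) (hN : N = 2 * (N / 2)) (hL : N ≤ al (2 ^ L))
    (hok : Okk l c N 1) (hq : ∀ v < N, q v < 2 ^ (c * 2 ^ l)) (h : run l c N L t = true) :
    ∀ v, memB t v = true → ¬ (q v + 1).Prime := by
  rw [run, fo_eq] at h
  have hD : Rep (pentagonalSeries ℤ) c N (EV c N L) :=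
    ⟨EV_lt c N L, EV_spec c N L hc hL⟩
  have hb : Bd (pentagonalSeries ℤ) N 1 := fun i _ => by
    have := abs_e_le i
    rw [e] at this
    exact_mod_cast this
  obtain ⟨go, h1, h2⟩ := mk_spec l c N _ _ 1 _ hok hD hb h
  rw [fo_eq] at h1
  obtain ⟨M, rfl⟩ : ∃ M, N = 2 * M := ⟨N / 2, hN⟩
  have hM : Nat.div (2 * M) 2 = M := Nat.mul_div_cancel_left M (by norm_num)
  rw [hM] at h1
  have hr : ∀ i, coeff i (expand 2 two_ne_zero (pentagonalSeries ℤ)) = r i := by
    intro i
    rw [coeff_expand, r]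
    rfl
  have hP : Rep (expand 2 two_ne_zero (pentagonalSeries ℤ)) c (2 * M) (EV (2 * c) M L) := by
    constructor
    · have h3 := EV_lt (2 * c) M L
      have h4 : c * (2 * M) = 2 * c * M := by ring
      rw [h4]
      exact h3
    · have h3 := EV_spec (2 * c) M L (by omega) (by omega)
      unfold Cg tv
      have h4 : ∑ i ∈ range (2 * M), coeff i (expand 2 two_ne_zero (pentagonalSeries ℤ)) * ((2 : ℤ) ^ c) ^ i
          = ∑ i ∈ range M, e i * ((2 : ℤ) ^ (2 * c)) ^ i := by
        have h5 := sum_r M ((2 : ℤ) ^ c)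
        rw [← pow_mul, mul_comm c 2] at h5
        rw [← h5]
        exact sum_congr rfl fun i _ => by rw [hr]
      rw [h4]
      have h6 : ((2 : ℤ) ^ c) ^ (2 * M) = ((2 : ℤ) ^ (2 * c)) ^ M := by
        rw [← pow_mul, ← pow_mul]
        congr 1
        ring
      rw [h6]
      exact h3
  have hbP : Bd (expand 2 two_ne_zero (pentagonalSeries ℤ)) (2 * M) 1 := fun i _ => by
    rw [hr]
    exact_mod_cast abs_r_le i
  have h7 := h2 QS _ t _ series_eq hP hbP (by
    intro i hi
    rw [QS, coeff_mk]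
    refine ⟨by positivity, ?_⟩
    exact_mod_cast hq i hi) h1
  intro v hv
  have h8 := h7 v hv
  rw [QS, coeff_mk, Int.toNat_natCast] at h8
  exact h8

/-- is `v` in one of the trees? -/
noncomputable def memL (Ts : List T) (v : ℕ) : Bool :=
  List.rec (motive := fun _ => Bool) false
    (fun t _ ih => Bool.rec (motive := fun _ => Bool) ih true (memB t v)) Ts

lemma memL_spec (Ts : List T) (v : ℕ) (h : memL Ts v = true) : ∃ t ∈ Ts, memB t v = true := by
  induction Ts with
  | nil => exact absurd h Bool.false_ne_true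
  | cons t Ts ih =>
    have h0 : (Bool.rec (motive := fun _ => Bool) (memL Ts v) true (memB t v) : Bool) = true := h
    cases hc : memB t v with
    | true => exact ⟨t, List.mem_cons_self, hc⟩
    | false =>
      rw [hc] at h0
      obtain ⟨s, hs, h1⟩ := ih h0
      exact ⟨s, List.mem_cons_of_mem _ hs, h1⟩

/-- the test for the pair `k, n - k` -/
noncomputable def prc (Ts : List T) (n k : ℕ) : Bool :=
  fo k fun k => Bool.rec (motive := fun _ => Bool)
    (Bool.rec (motive := fun _ => Bool) true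
      (totc k fun a => totc (Nat.sub n k) fun b => fo (Nat.div (Nat.mul a b) 4) (memL Ts))
      (Nat.ble (Nat.mul 2 k) n))
    true (Nat.ble k 2)

lemma prc_spec (Ts : List T) (n k : ℕ) (hk : 3 ≤ k) (hkn : 2 * k ≤ n) (h : prc Ts n k = true) :
    memL Ts (Nat.totient k * Nat.totient (n - k) / 4) = true := by
  rw [prc, fo_eq] at h
  have h1 : Nat.ble k 2 = false := by
    rw [← Bool.not_eq_true, Nat.ble_eq]
    omega
  have h2 : Nat.ble (Nat.mul 2 k) n = true := Nat.ble_eq.mpr hkn
  rw [h1, h2] at h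
  have h3 := totc_spec k _ h
  have h4 := totc_spec (n - k) _ h3
  rw [fo_eq] at h4
  exact h4

theorem final (Ts : List T) (n l : ℕ) (hn : n < 2 * 2 ^ l)
    (hT : ∀ t ∈ Ts, ∀ v, memB t v = true → ¬ (q v + 1).Prime)
    (h : Pool.Agent.X40.SQ.rg (prc Ts n) l 0 = true) :
    ∀ k m, 3 ≤ k → 3 ≤ m → k + m = n →
      ¬ (q (Nat.totient k * Nat.totient m / 4) + 1).Prime := by
  have key : ∀ k m, 3 ≤ k → k + m = n → k ≤ m →
      ¬ (q (Nat.totient k * Nat.totient m / 4) + 1).Prime := by
    intro k m hk hkm hle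
    have h1 := Pool.Agent.X40.SQ.rg_spec (prc Ts n) l 0 h k (by omega)
    rw [zero_add] at h1
    have h2 := prc_spec Ts n k hk (by omega) h1
    obtain ⟨t, ht, h3⟩ := memL_spec Ts _ h2
    rw [show n - k = m by omega] at h3
    exact hT t ht _ h3
  intro k m hk hm hkm
  rcases le_total k m with h1 | h1
  · exact key k m hk hkm h1
  · rw [mul_comm]
    exact key m k hm (by omega) h1

end Pool.Agent.U982.DK
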