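import Pool.Agent.X40.SQ.TotSound

/-!
# Values of truncated power series at powers of two, and parity splitting
-/

set_option autoImplicit false

namespace Pool.Agent.U982.DK

open PowerSeries Finset

/-- the value of the truncation of `f` at `x` -/
noncomputable def tv (f : ℤ⟦X⟧) (N : ℕ) (x : ℤ) : ℤ := ∑ i ∈ range N, coeff i f * x ^ i

/-- the integer `z` represents `f` modulo `(2 ^ c) ^ N` -/
def Cg (f : ℤ⟦X⟧) (c N : ℕ) (z : ℤ) : Prop := ((2 : ℤ) ^ c) ^ N ∣ z - tv f N ((2 : ℤ) ^ c)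

lemma tv_mul (f g : ℤ⟦X⟧) (N : ℕ) (x : ℤ) : x ^ N ∣ tv f N x * tv g N x - tv (f * g) N x := by
  have h1 : (Polynomial.X : Polynomial ℤ) ^ N ∣
      (∑ i ∈ range N, Polynomial.C (coeff i f) * Polynomial.X ^ i) *
      (∑ i ∈ range N, Polynomial.C (coeff i g) * Polynomial.X ^ i) -
      ∑ i ∈ range N, Polynomial.C (coeff i (f * g)) * Polynomial.X ^ i := by
    rw [Polynomial.X_pow_dvd_iff]
    intro d hd
    have hc : ∀ (u : ℤ⟦X⟧) (i : ℕ), i < N →
        (∑ i ∈ range N, Polynomial.C (coeff i u) * Polynomial.X ^ i : Polynomial ℤ).coeff i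
          = coeff i u := by
      intro u i hi
      rw [Polynomial.finsetSum_coeff]
      simp only [Polynomial.coeff_C_mul, Polynomial.coeff_X_pow]
      simp [hi]
    rw [Polynomial.coeff_sub, Polynomial.coeff_mul, hc _ d hd, sub_eq_zero, PowerSeries.coeff_mul]
    refine sum_congr rfl fun p hp => ?_
    have hp' := mem_antidiagonal.mp hp
    rw [hc f p.1 (by omega), hc g p.2 (by omega)]
  obtain ⟨s, hs⟩ := h1
  refine ⟨s.eval x, ?_⟩
  have h2 := congrArg (Polynomial.eval x) hs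
  simpa [Polynomial.eval_finsetSum, tv] using h2

lemma Cg.mul {f g : ℤ⟦X⟧} {c N : ℕ} {z w : ℤ} (hf : Cg f c N z) (hg : Cg g c N w) :
    Cg (f * g) c N (z * w) := by
  have h1 := tv_mul f g N ((2 : ℤ) ^ c)
  have h2 := dvd_add (dvd_add (hf.mul_right w) (hg.mul_left (tv f N ((2 : ℤ) ^ c)))) h1
  unfold Cg
  convert! h2 using 1
  ring

lemma tv_sub (f g : ℤ⟦X⟧) (N : ℕ) (x : ℤ) : tv (f - g) N x = tv f N x - tv g N x := by
  simp [tv, sub_mul, sum_sub_distrib]

lemma Cg.sub {f g : ℤ⟦X⟧} {c N : ℕ} {z w : ℤ} (hf : Cg f c N z) (hg : Cg g c N w) :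
    Cg (f - g) c N (z - w) := by
  have h2 := dvd_sub hf hg
  unfold Cg
  rw [tv_sub]
  convert! h2 using 1
  ring

lemma tv_X_mul (f : ℤ⟦X⟧) (N : ℕ) (x : ℤ) : x ^ N ∣ x * tv f N x - tv (X * f) N x := by
  cases N with
  | zero => simp
  | succ N =>
    have h : x * tv f (N + 1) x - tv (X * f) (N + 1) x = x ^ (N + 1) * coeff N f := by
      rw [tv, tv, sum_range_succ, sum_range_succ' (fun i => coeff i (X * f) * x ^ i)]
      simp only [PowerSeries.coeff_succ_X_mul, PowerSeries.coeff_zero_X_mul, zero_mul, add_zero]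
      rw [mul_add, mul_sum]
      have h1 : ∀ i ∈ range N, x * (coeff i f * x ^ i) = coeff i f * x ^ (i + 1) := fun i _ => by ring
      rw [sum_congr rfl h1]
      ring
    rw [h]
    exact dvd_mul_right _ _

lemma Cg.xmul {f : ℤ⟦X⟧} {c N : ℕ} {z : ℤ} (hf : Cg f c N z) : Cg (X * f) c N ((2 : ℤ) ^ c * z) := by
  have h1 := tv_X_mul f N ((2 : ℤ) ^ c)
  have h2 := dvd_add (hf.mul_left ((2 : ℤ) ^ c)) h1
  unfold Cg
  convert! h2 using 1
  ring

lemma Cg.mod {f : ℤ⟦X⟧} {c N : ℕ} {Z : ℕ} (hf : Cg f c N Z) : Cg f c N ((Z % 2 ^ (c * N) : ℕ) : ℤ) := by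
  have h4 := Nat.mod_add_div Z (2 ^ (c * N))
  have h5 : ((Z % 2 ^ (c * N) : ℕ) : ℤ) + (2 ^ (c * N) * (Z / 2 ^ (c * N)) : ℕ) = (Z : ℤ) := by
    exact_mod_cast h4
  have h6 : ((2 : ℤ) ^ c) ^ N ∣ -(((2 : ℤ) ^ c) ^ N * ((Z / 2 ^ (c * N) : ℕ) : ℤ)) :=
    (dvd_mul_right _ _).neg_right
  have h7 := dvd_add hf h6
  unfold Cg
  convert! h7 using 1
  push_cast at h5 ⊢
  rw [← pow_mul]
  linarith

/-- the natural number `F` represents `f` -/
def Rep (f : ℤ⟦X⟧) (c N F : ℕ) : Prop := F < 2 ^ (c * N) ∧ Cg f c N F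

/-- the truncated difference -/
def sb (S a b : ℕ) : ℕ := Nat.land (Nat.add a (Nat.sub (Nat.shiftLeft 1 S) (Nat.land b (Pool.Agent.X40.SQ.mask S))))
  (Pool.Agent.X40.SQ.mask S)

lemma shl_one (S : ℕ) : Nat.shiftLeft 1 S = 2 ^ S := by
  rw [show Nat.shiftLeft 1 S = 1 <<< S from rfl, Nat.one_shiftLeft]

lemma sb_eq (S a b : ℕ) : sb S a b = (a + (2 ^ S - b % 2 ^ S)) % 2 ^ S := by
  rw [sb, Pool.Agent.X40.SQ.land_mask, Pool.Agent.X40.SQ.land_mask, shl_one]
  rfl

lemma Rep.of_nat {f : ℤ⟦X⟧} {c N Z : ℕ} (h : Cg f c N Z) : Rep f c N (Z % 2 ^ (c * N)) :=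
  ⟨Nat.mod_lt _ (by positivity), h.mod⟩

lemma Rep.sb {f g : ℤ⟦X⟧} {c N a b : ℕ} (hf : Cg f c N a) (hg : Cg g c N b) :
    Rep (f - g) c N (sb (c * N) a b) := by
  rw [sb_eq]
  apply Rep.of_nat
  have h1 : b % 2 ^ (c * N) ≤ 2 ^ (c * N) := (Nat.mod_lt _ (by positivity)).le
  have h2 := hf.sub hg.mod
  unfold Cg at h2 ⊢
  have h3 : ((2 : ℤ) ^ c) ^ N ∣ ((2 : ℤ) ^ (c * N)) := by rw [pow_mul]
  have h4 := dvd_add h2 h3
  convert! h4 using 1
  rw [Nat.cast_add, Nat.cast_sub h1]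
  push_cast
  ring

/-- the even part -/
noncomputable def ep (f : ℤ⟦X⟧) : ℤ⟦X⟧ := PowerSeries.mk fun i => coeff (2 * i) f

/-- the odd part -/
noncomputable def op (f : ℤ⟦X⟧) : ℤ⟦X⟧ := PowerSeries.mk fun i => coeff (2 * i + 1) f

lemma split_eq (f : ℤ⟦X⟧) : f = expand 2 two_ne_zero (ep f) + X * expand 2 two_ne_zero (op f) := by
  ext n
  rcases Nat.even_or_odd' n with ⟨m, rfl | rfl⟩
  · rw [map_add, coeff_expand, if_pos (dvd_mul_right 2 m)]
    cases m with
    | zero => simp [ep]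
    | succ m =>
      rw [show 2 * (m + 1) = (2 * m + 1) + 1 by ring, coeff_succ_X_mul, coeff_expand,
        if_neg (by omega), add_zero, show (2 * m + 1 + 1) / 2 = m + 1 by omega, ep, coeff_mk]
      congr 2
  · rw [map_add, coeff_expand, if_neg (by omega), zero_add, coeff_succ_X_mul, coeff_expand,
      if_pos (dvd_mul_right 2 m), Nat.mul_div_cancel_left m (by norm_num), op, coeff_mk]

lemma split_uniq {f a b : ℤ⟦X⟧} (h : f = expand 2 two_ne_zero a + X * expand 2 two_ne_zero b) :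
    ep f = a ∧ op f = b := by
  constructor
  · ext m
    rw [ep, coeff_mk, h, map_add, coeff_expand, if_pos (dvd_mul_right 2 m),
      Nat.mul_div_cancel_left m (by norm_num)]
    cases m with
    | zero => simp
    | succ m =>
      rw [show 2 * (m + 1) = (2 * m + 1) + 1 by ring, coeff_succ_X_mul, coeff_expand,
        if_neg (by omega), add_zero]
  · ext m
    rw [op, coeff_mk, h, map_add, coeff_expand, if_neg (by omega), zero_add, coeff_succ_X_mul,
      coeff_expand, if_pos (dvd_mul_right 2 m), Nat.mul_div_cancel_left m (by norm_num)]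

lemma split_mul (f g : ℤ⟦X⟧) : ep (f * g) = ep f * ep g + X * (op f * op g) ∧
    op (f * g) = ep f * op g + op f * ep g := by
  apply split_uniq
  have hX : expand 2 two_ne_zero (X : ℤ⟦X⟧) = X * X := by rw [expand_X, pow_two]
  conv_lhs => rw [split_eq f, split_eq g]
  simp only [map_add, map_mul, hX]
  ring

/-- the step of the recursion -/
lemma step (A D P : ℤ⟦X⟧) (h : A * D = P) :
    ep A * (ep D * ep D - X * (op D * op D)) = ep P * ep D - X * (op P * op D) ∧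
    op A * (ep D * ep D - X * (op D * op D)) = op P * ep D - ep P * op D := by
  obtain ⟨h1, h2⟩ := split_mul A D
  rw [h] at h1 h2
  rw [h1, h2]
  constructor <;> ring

end Pool.Agent.U982.DK
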