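import Pool.Agent.U982.DK.Chain

/-!
# Splitting a leaf
-/

set_option autoImplicit false

namespace Pool.Agent.U982.DK

open PowerSeries
open Pool.Agent.X40.SQ (fo fo_eq)

lemma memB_lf (k : K) (v : ℕ) : memB (T.lf k) v = elB k v := by
  change fo v (elB k) = _
  rw [fo_eq]

lemma elB_s (h : ℕ) (a b : K) (v : ℕ) : elB (K.s h a b) v =
    (Bool.rec (motive := fun _ => Bool) (elB b (Nat.sub v h)) (elB a v) (Nat.blt v h) : Bool) := by
  change fo v (fun v => (Bool.rec (motive := fun _ => Bool) (elB b (Nat.sub v h)) (elB a v)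
    (Nat.blt v h) : Bool)) = _
  rw [fo_eq]

lemma Hold_s (A : ℤ⟦X⟧) (h : ℕ) (a b : K) (ha : Hold A (T.lf (K.s h a K.z)))
    (hb : Hold A (T.lf (K.s h K.z b))) : Hold A (T.lf (K.s h a b)) := by
  intro v hv
  rw [memB_lf, elB_s] at hv
  cases hc : Nat.blt v h with
  | true =>
    rw [hc] at hv
    exact ha v (by rw [memB_lf, elB_s, hc]; exact hv)
  | false =>
    rw [hc] at hv
    exact hb v (by rw [memB_lf, elB_s, hc]; exact hv)

/-- a node put together from its two halves -/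
lemma Hold_two (A : ℤ⟦X⟧) (x y : T) (hx : Hold A (T.nd x T.nil)) (hy : Hold A (T.nd T.nil y)) :
    Hold A (T.nd x y) :=
  Hold_nd _ _ _ (Hold_ep _ _ _ hx) (Hold_op _ _ _ hy)

/-- a node put together from three parts -/
lemma Hold_three (A : ℤ⟦X⟧) (h : ℕ) (a b : K) (y : T) (ha : Hold A (T.nd (T.lf (K.s h a K.z)) T.nil))
    (hb : Hold A (T.nd (T.lf (K.s h K.z b)) T.nil)) (hy : Hold A (T.nd T.nil y)) :
    Hold A (T.nd (T.lf (K.s h a b)) y) :=
  Hold_nd _ _ _ (Hold_s _ _ _ _ (Hold_ep _ _ _ ha) (Hold_ep _ _ _ hb)) (Hold_op _ _ _ hy)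

end Pool.Agent.U982.DK
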